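import Pool.Agent.H820R3.BSDN.G6
import Pool.Agent.H820R3.BSDN.G7

/-!
# Averaged central Euler products of odd weight over number fields

Let `α_{v,j}`, `1 ≤ j ≤ d`, `v` a prime of the number field `K` with norm `q_v`, be complex numbers with
`|α_{v,j}| ≤ q_v^(i + 1/2)` and real power sums for every `v` (by Deligne the eigenvalues of Frobenius on
`H^(2i+1)(X)` for a smooth projective variety `X` over `K` and the places of good reduction, and `0`
at the other places). Let `G` be the entire continuation of the Euler product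
`∏_v ∏_j (1 - α_{v,j} q_v^(-s))⁻¹`, of polynomial growth in `Re s ≥ i + 1`, `EP(x)` the product of
the inverse factors at the central point `s = i + 1` over `q_v ≤ x`, and `LA(x)` the logarithmic average of
`log EP(n) - κ log log n`. Then

* `LA` is bounded above if and only if `G` has no zero with `Re s > i + 1` and `ord_{s=i+1} G ≤ κ`;
* `LA` is bounded if and only if `G` has no zero with `Re s > i + 1` and `ord_{s=i+1} G = κ`;
* if `G` has no real zero greater than `i + 1`: `LA` is bounded below if and only if `G` has no zero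
  with `Re s > i + 1` and `ord_{s=i+1} G ≥ κ`.

The second part is the same statement for `H^(2i+1)(C^n)`, `C : y² = f(x)` over `ℚ`, where the Euler
factors are defined by the numbers of points of `C` over finite fields.
-/

set_option autoImplicit false

open NumberField IsDedekindDomain

namespace Pool.Agent.Results.MP_b8021b_nt.AveragedCentralProducts

open Pool.Agent.H820R3.BSDN.Mot
open Pool.Agent.H438R3.BSD

/-- See the introduction. -/
theorem result :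
    (∀ (K : Type) [Field K] [NumberField K] (i d : ℕ)
      (α : HeightOneSpectrum (𝓞 K) → Fin d → ℂ) (_h : Sys i d α) (G : ℂ → ℂ) (_hG : IsL i d α G)
      (_hgr : ∃ C N : ℝ, ∀ s : ℂ, (i : ℝ) + 1 ≤ s.re → ‖G s‖ ≤ C * (1 + ‖s‖) ^ N),
      ∃ m : ℕ, analyticOrderAt G (i + 1) = m ∧ ∀ κ : ℝ,
        ((∃ C : ℝ, ∀ x : ℕ, LA i d α κ x ≤ C) ↔
          (∀ s : ℂ, (i : ℝ) + 1 < s.re → G s ≠ 0) ∧ (m : ℝ) ≤ κ) ∧
        ((∃ C : ℝ, ∀ x : ℕ, |LA i d α κ x| ≤ C) ↔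
          (∀ s : ℂ, (i : ℝ) + 1 < s.re → G s ≠ 0) ∧ κ = m) ∧
        ((∀ σ : ℝ, (i : ℝ) + 1 < σ → G σ ≠ 0) → ((∃ C : ℝ, ∀ x : ℕ, C ≤ LA i d α κ x) ↔
          (∀ s : ℂ, (i : ℝ) + 1 < s.re → G s ≠ 0) ∧ κ ≤ m))) ∧
    (∀ (f : Polynomial ℤ) (_hd : 1 ≤ f.natDegree) (n i : ℕ) (G : ℂ → ℂ) (_hG : Bei.IsL f n i G)
      (_hgr : ∃ C N : ℝ, ∀ s : ℂ, (i : ℝ) + 1 ≤ s.re → ‖G s‖ ≤ C * (1 + ‖s‖) ^ N),
      ∃ m : ℕ, analyticOrderAt G (i + 1) = m ∧ ∀ κ : ℝ,
        ((∃ C : ℝ, ∀ x : ℕ, Bei.LA f n i κ x ≤ C) ↔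
          (∀ s : ℂ, (i : ℝ) + 1 < s.re → G s ≠ 0) ∧ (m : ℝ) ≤ κ) ∧
        ((∃ C : ℝ, ∀ x : ℕ, |Bei.LA f n i κ x| ≤ C) ↔
          (∀ s : ℂ, (i : ℝ) + 1 < s.re → G s ≠ 0) ∧ κ = m) ∧
        ((∀ σ : ℝ, (i : ℝ) + 1 < σ → G σ ≠ 0) → ((∃ C : ℝ, ∀ x : ℕ, C ≤ Bei.LA f n i κ x) ↔
          (∀ s : ℂ, (i : ℝ) + 1 < s.re → G s ≠ 0) ∧ κ ≤ m))) :=
  ⟨fun _ _ _ _ _ _ h _ hG hgr => iff_mot h hG hgr,
    fun f hd n i _ hG hgr => Pool.Agent.H820R3.BSDN.iff_Bei f hd n i hG hgr⟩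

end Pool.Agent.Results.MP_b8021b_nt.AveragedCentralProducts
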