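import Pool.Agent.H820R3.BSDN.G11

/-!
# Comparison of the central Euler products of two motives of odd weight

For `ν = 1, 2` let `K_ν` be a number field and `α_{ν,v,j}`, `1 ≤ j ≤ d_ν`, `v` a prime of `K_ν` with
norm `q_v`, complex numbers with `|α_{ν,v,j}| ≤ q_v^(i_ν + 1/2)` and real power sums for every `v` (by
Deligne the eigenvalues of Frobenius on `H^(2 i_ν + 1)(X_ν)` for a smooth projective variety `X_ν`
over `K_ν` and the places of good reduction, and `0` at the other places). Let `L_ν(s)` be the Euler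
product, `EP_ν(x)` the product of the inverse factors at the central point `s = i_ν + 1` over
`q_v ≤ x`, and `LD(x)` the logarithmic average of `log EP₁(n) - log EP₂(n) - κ log log n`.

1. If `LD` is bounded, then `L₁(s + i₁) / L₂(s + i₂)` extends to a holomorphic function `G` without
  zeros in `Re s > 1`, and `log |G(1 + w)| - κ log w` is bounded as `w → 0+`. (Nothing is assumed
  about the continuation of `L₁` and `L₂`.)
2. Suppose that `L₁`, `L₂` continue to functions which are meromorphic at the real points of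
  `[i_ν + 1, ∞)`, and let `m_ν` be the orders at the central points. If `LD` is bounded, then
  `m₁ - m₂ = κ`. If the quotient has no real pole `> 1`, and `κ < m₁ - m₂` or the quotient has no
  holomorphic extension without zeros to `Re s > 1`, then `LD`, and also
  `log EP₁(n) - log EP₂(n) - κ log log n`, are unbounded above.
-/

set_option autoImplicit false

open NumberField IsDedekindDomain Filter Topology

namespace Pool.Agent.Results.MP_b8021b_nt.ComparedProducts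

open Pool.Agent.H820R3.BSDN.Mot

/-- See the introduction. -/
theorem result (K₁ K₂ : Type) [Field K₁] [NumberField K₁] [Field K₂] [NumberField K₂]
    (i₁ d₁ i₂ d₂ : ℕ) (α₁ : HeightOneSpectrum (𝓞 K₁) → Fin d₁ → ℂ)
    (α₂ : HeightOneSpectrum (𝓞 K₂) → Fin d₂ → ℂ) (h₁ : Sys i₁ d₁ α₁) (h₂ : Sys i₂ d₂ α₂)
    (F₁ F₂ : ℂ → ℂ)
    (hF₁ : ∀ s : ℂ, (i₁ : ℝ) + 3 / 2 < s.re → IsProd d₁ α₁ s (F₁ s))
    (hF₂ : ∀ s : ℂ, (i₂ : ℝ) + 3 / 2 < s.re → IsProd d₂ α₂ s (F₂ s)) :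
    (∀ κ C : ℝ, (∀ᶠ x : ℕ in atTop, |LD i₁ d₁ α₁ i₂ d₂ α₂ κ x| ≤ C) →
      ∃ G : ℂ → ℂ, DifferentiableOn ℂ G {s | 1 < s.re} ∧ (∀ s : ℂ, 1 < s.re → G s ≠ 0) ∧
        (∀ s : ℂ, 3 / 2 < s.re → F₂ (s + i₂) ≠ 0 ∧ G s = F₁ (s + i₁) / F₂ (s + i₂)) ∧
        ∃ B : ℝ, ∀ᶠ w : ℝ in 𝓝[>] 0, |Real.log ‖G (1 + w)‖ - κ * Real.log w| ≤ B) ∧
    ((∀ σ : ℝ, (i₁ : ℝ) + 1 ≤ σ → MeromorphicAt F₁ (σ : ℂ)) →
      (∀ σ : ℝ, (i₂ : ℝ) + 1 ≤ σ → MeromorphicAt F₂ (σ : ℂ)) →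
      ∃ m₁ m₂ : ℤ, meromorphicOrderAt F₁ (i₁ + 1) = m₁ ∧ meromorphicOrderAt F₂ (i₂ + 1) = m₂ ∧
      (∀ κ C : ℝ, (∀ᶠ x : ℕ in atTop, |LD i₁ d₁ α₁ i₂ d₂ α₂ κ x| ≤ C) → κ = m₁ - m₂) ∧
      ((∀ σ : ℝ, 1 < σ → 0 ≤ meromorphicOrderAt (fun s => F₁ (s + i₁) / F₂ (s + i₂)) (σ : ℂ)) →
        ∀ κ : ℝ, (κ < m₁ - m₂ ∨ ¬ ∃ G : ℂ → ℂ, DifferentiableOn ℂ G {s | 1 < s.re} ∧
          (∀ s : ℂ, 1 < s.re → G s ≠ 0) ∧
          ∀ s : ℂ, 3 / 2 < s.re → G s = F₁ (s + i₁) / F₂ (s + i₂)) → ∀ C : ℝ,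
        (∃ᶠ x : ℕ in atTop, C < LD i₁ d₁ α₁ i₂ d₂ α₂ κ x) ∧
        ∃ᶠ x : ℕ in atTop, C < Real.log (EP i₁ d₁ α₁ x) - Real.log (EP i₂ d₂ α₂ x) -
          κ * Real.log (Real.log x))) :=
  ⟨fun κ C hC => cmp_two h₁ h₂ hF₁ hF₂ κ C hC,
    fun hm₁ hm₂ => cmp_order h₁ h₂ hF₁ hF₂ hm₁ hm₂⟩

end Pool.Agent.Results.MP_b8021b_nt.ComparedProducts
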